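import Pool.Agent.helper81.CX.Spec2

/-! Row cx:CEN. -/

set_option autoImplicit false

open MeasureTheory Set Filter Topology
open scoped ENNReal
open Pool.Agent.helper81.CW

noncomputable section

namespace Pool.Agent.CX

theorem CEN_un_meas {n : ℕ} : Measurable (fun x : E n => un x) := by
  unfold un
  exact measurable_norm.inv.smul measurable_id

theorem CEN_un_norm {n : ℕ} (x : E n) : ‖un x‖ ≤ 1 := by
  unfold un
  rw [norm_smul, norm_inv, norm_norm]
  by_cases h : ‖x‖ = 0
  · rw [h]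
    simp
  · rw [inv_mul_cancel₀ h]

theorem CEN_un_neg {n : ℕ} (x : E n) : un (-x) = -un x := by
  unfold un
  rw [norm_neg, smul_neg]

theorem CEN_ne {n : ℕ} (hn : 1 ≤ n) : ∀ᵐ x : E n ∂(gm n), x ≠ 0 := by
  have : Nonempty (Fin n) := ⟨⟨0, hn⟩⟩
  have h1 : ∀ᵐ x : E n ∂(volume : Measure (E n)), x ≠ 0 := by
    rw [ae_iff]
    simp
  exact (withDensity_absolutelyContinuous (volume : Measure (E n)) _).ae_le h1

theorem CEN (hG1 : G1_stmt) (hJ2 : J2_stmt) : CEN_stmt := by
  intro n C M hn hC hC2 hM hMC k hk0 hk1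
  have hp : IsProbabilityMeasure (gm n) := (hG1 n).1
  obtain ⟨hne, hcomp, hconv, _, _⟩ := id hC
  have h0 : (0 : E n) ∈ C := by
    refine (hJ2 n C 1 hC).2.1 0 fun x hx => ?_
    rw [zero_sub, norm_neg]
    have := hC2 x hx
    nlinarith [norm_nonneg x]
  have iM : Integrable (fun x : E n => M x) (gm n) :=
    Integrable.of_bound hM.meas.aestronglyMeasurable (1 / 2) (Eventually.of_forall hM.bdd)
  have iu : Integrable (fun x : E n => un x) (gm n) :=
    Integrable.of_bound CEN_un_meas.aestronglyMeasurable 1 (Eventually.of_forall CEN_un_norm)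
  have iu2 : Integrable (fun x : E n => (1 / 2 : ℝ) • un x) (gm n) := iu.smul (1 / 2 : ℝ)
  have hu : ∫ x : E n, un x ∂(gm n) = 0 := by
    have h1 : ∫ x : E n, un x ∂(gm n) = ∫ x : E n, un (-x) ∂(gm n) := by
      conv_lhs => rw [← (hG1 n).2]
      exact integral_map measurable_neg.aemeasurable CEN_un_meas.aestronglyMeasurable
    simp_rw [CEN_un_neg] at h1
    rw [integral_neg] at h1
    have h2 : (2 : ℝ) • ∫ x : E n, un x ∂(gm n) = 0 := by
      rw [two_smul]
      conv_lhs => rhs; rw [h1]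
      exact add_neg_cancel _
    exact (smul_eq_zero.1 h2).resolve_left two_ne_zero
  have h2 : ∫ x : E n, (M x + (1 / 2 : ℝ) • un x) ∂(gm n) = ∫ x : E n, M x ∂(gm n) := by
    rw [integral_add iM iu2, integral_smul, hu, smul_zero, add_zero]
  have h3 : ∫ x : E n, (M x + (1 / 2 : ℝ) • un x) ∂(gm n) ∈ C :=
    hconv.integral_mem hcomp.isClosed ((CEN_ne hn).mono fun x hx => hMC x hx) (iM.add iu2)
  rw [h2] at h3
  exact hconv.smul_mem_of_zero_mem h0 h3 ⟨hk0, hk1⟩

end Pool.Agent.CX
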