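import Pool.Agent.helper81.CX.Spec2

/-! Row cx:EVQ. -/

set_option autoImplicit false

open MeasureTheory Set Filter Topology
open scoped ENNReal
open Pool.Agent.helper81.CW

noncomputable section

namespace Pool.Agent.CX

theorem EVQ_int (hG1 : G1_stmt) {n : ℕ} {f g : E n → E n} (hf : BM f) (hg : BM g) :
    Integrable (fun x => (inner ℝ (f x) (g x) : ℝ)) (gm n) := by
  have hp : IsProbabilityMeasure (gm n) := (hG1 n).1
  refine Integrable.of_bound (hf.1.inner hg.1).aestronglyMeasurable 4 (Eventually.of_forall fun x => ?_)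
  refine (norm_inner_le_norm (f x) (g x)).trans ?_
  have h1 := hf.2 x
  have h2 := hg.2 x
  nlinarith [norm_nonneg (f x), norm_nonneg (g x)]

theorem EVQ_pt {n : ℕ} (u v w : E n) (A b mu : ℝ) (hA : 0 < A) :
    0 ≤ A * inner ℝ u u + 2 * (b * inner ℝ v u - mu * inner ℝ u w) +
      (1 / A) * (b ^ 2 * inner ℝ v v - 2 * b * mu * inner ℝ v w + mu ^ 2 * inner ℝ w w) := by
  have h : 0 ≤ (1 / A) * inner ℝ (A • u + (b • v - mu • w)) (A • u + (b • v - mu • w)) :=
    mul_nonneg (by positivity) real_inner_self_nonneg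
  have e : (inner ℝ (A • u + (b • v - mu • w)) (A • u + (b • v - mu • w)) : ℝ) =
      A ^ 2 * inner ℝ u u + 2 * A * (b * inner ℝ v u - mu * inner ℝ u w) +
      (b ^ 2 * inner ℝ v v - 2 * b * mu * inner ℝ v w + mu ^ 2 * inner ℝ w w) := by
    simp only [inner_add_left, inner_add_right, inner_sub_left, inner_sub_right, real_inner_smul_left,
      real_inner_smul_right]
    rw [real_inner_comm u v, real_inner_comm u w, real_inner_comm v w]
    ring
  rw [e] at h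
  have hA0 : A ≠ 0 := hA.ne'
  have e2 : (1 / A) * (A ^ 2 * inner ℝ u u + 2 * A * (b * inner ℝ v u - mu * inner ℝ u w) +
      (b ^ 2 * inner ℝ v v - 2 * b * mu * inner ℝ v w + mu ^ 2 * inner ℝ w w)) =
      A * inner ℝ u u + 2 * (b * inner ℝ v u - mu * inner ℝ u w) +
      (1 / A) * (b ^ 2 * inner ℝ v v - 2 * b * mu * inner ℝ v w + mu ^ 2 * inner ℝ w w) := by
    field_simp
  rw [e2] at h
  exact h

theorem EVQ (hG1 : G1_stmt) (hCRB : CRB_stmt) (hCRS : CRS_stmt) (hSPD : SPD_stmt) : EVQ_stmt := by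
  intro n f g b mu p t c hf hg hb hmu hp ht0 ht1 hc0 hc1 hbm hq
  have hprob : IsProbabilityMeasure (gm n) := (hG1 n).1
  have hcabs : |c| ≤ 1 := abs_le.2 ⟨by linarith, hc1.le⟩
  obtain ⟨hP, hfg, _, _⟩ := hCRB n f g c hf.bm hg.bm hcabs
  obtain ⟨_, hgg, _, hgg1⟩ := hCRB n g g c hg.bm hg.bm hcabs
  obtain ⟨_, _, _, hff1⟩ := hCRB n f f c hf.bm hf.bm hcabs
  have hcc := hCRS n g g c c hg.bm hg.bm hc0.le hc1.le hc0.le hc1.le
  obtain ⟨hf1, _⟩ := hSPD n f t hf ht0 ht1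
  obtain ⟨hg1, hg2⟩ := hSPD n g c hg hc0 hc1
  have ht2 : 0 < 1 - t ^ 2 := by nlinarith
  set A : ℝ := p * (1 - t ^ 2) with hA
  have hA0 : 0 < A := mul_pos hp ht2
  have iff' := EVQ_int hG1 hf.bm hf.bm
  have igf := EVQ_int hG1 hg.bm hf.bm
  have ifP := EVQ_int hG1 hf.bm hP
  have igg := EVQ_int hG1 hg.bm hg.bm
  have igP := EVQ_int hG1 hg.bm hP
  have iPP := EVQ_int hG1 hP hP
  have hpt : 0 ≤ ∫ x, (A * inner ℝ (f x) (f x) + 2 * (b * inner ℝ (g x) (f x) - mu * inner ℝ (f x) (PP g c x)) +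
      (1 / A) * (b ^ 2 * inner ℝ (g x) (g x) - 2 * b * mu * inner ℝ (g x) (PP g c x) +
        mu ^ 2 * inner ℝ (PP g c x) (PP g c x))) ∂(gm n) :=
    integral_nonneg fun x => EVQ_pt (f x) (g x) (PP g c x) A b mu hA0
  have j1 := iff'.const_mul A
  have j2 := igf.const_mul b
  have j3 := ifP.const_mul mu
  have j4 := (j2.sub j3).const_mul 2
  have j5 := igg.const_mul (b ^ 2)
  have j6 := igP.const_mul (2 * b * mu)
  have j7 := iPP.const_mul (mu ^ 2)
  have j8 := ((j5.sub j6).add j7).const_mul (1 / A)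
  have hexp : ∫ x, (A * inner ℝ (f x) (f x) + 2 * (b * inner ℝ (g x) (f x) - mu * inner ℝ (f x) (PP g c x)) +
      (1 / A) * (b ^ 2 * inner ℝ (g x) (g x) - 2 * b * mu * inner ℝ (g x) (PP g c x) +
        mu ^ 2 * inner ℝ (PP g c x) (PP g c x))) ∂(gm n) =
      A * (∫ x, (inner ℝ (f x) (f x) : ℝ) ∂(gm n)) + 2 * (b * (∫ x, (inner ℝ (g x) (f x) : ℝ) ∂(gm n)) -
        mu * (∫ x, (inner ℝ (f x) (PP g c x) : ℝ) ∂(gm n))) +
      (1 / A) * (b ^ 2 * (∫ x, (inner ℝ (g x) (g x) : ℝ) ∂(gm n)) -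
        2 * b * mu * (∫ x, (inner ℝ (g x) (PP g c x) : ℝ) ∂(gm n)) +
        mu ^ 2 * (∫ x, (inner ℝ (PP g c x) (PP g c x) : ℝ) ∂(gm n))) := by
    have k1 := integral_add (j1.add j4) j8
    have k2 := integral_add j1 j4
    have k3 := integral_sub j2 j3
    have k4 := integral_add (j5.sub j6) j7
    have k5 := integral_sub j5 j6
    simp only [Pi.add_apply, Pi.sub_apply] at k1 k2 k3 k4 k5
    rw [k1, k2, integral_const_mul, integral_const_mul, integral_const_mul, k3, k4, k5,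
      integral_const_mul, integral_const_mul, integral_const_mul, integral_const_mul, integral_const_mul]
  rw [hexp, ← hff1, ← hgg1, ← hfg, ← hgg, ← hcc, ← sq] at hpt
  have hG0 : 0 ≤ CR g g 1 := by
    rw [hgg1]
    exact integral_nonneg fun x => real_inner_self_nonneg
  generalize (∫ x, (inner ℝ (g x) (f x) : ℝ) ∂(gm n)) = I at hpt ⊢
  have s1 : mu ^ 2 * CR g g (c ^ 2) ≤ mu ^ 2 * (c ^ 2 * CR g g c) :=
    mul_le_mul_of_nonneg_left hg2 (by positivity)
  have s2 : (mu ^ 2 * c ^ 2 - 2 * b * mu) * CR g g c ≤ (mu ^ 2 * c ^ 2 - 2 * b * mu) * (c ^ 2 * CR g g 1) := by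
    refine mul_le_mul_of_nonneg_left hg1 ?_
    nlinarith
  have s3 : b ^ 2 * CR g g 1 - 2 * b * mu * CR g g c + mu ^ 2 * CR g g (c ^ 2) ≤ A * (mu - b ^ 2) * CR g g 1 := by
    have : (b - mu * c ^ 2) ^ 2 * CR g g 1 ≤ A * (mu - b ^ 2) * CR g g 1 :=
      mul_le_mul_of_nonneg_right hq hG0
    nlinarith
  have s4 : (1 / A) * (b ^ 2 * CR g g 1 - 2 * b * mu * CR g g c + mu ^ 2 * CR g g (c ^ 2)) ≤
      (mu - b ^ 2) * CR g g 1 := by
    have h := mul_le_mul_of_nonneg_left s3 (by positivity : (0 : ℝ) ≤ 1 / A)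
    have e : (1 / A) * (A * (mu - b ^ 2) * CR g g 1) = (mu - b ^ 2) * CR g g 1 := by
      field_simp
    rw [e] at h
    exact h
  have s5 : A * CR f f 1 ≤ p * (CR f f 1 - CR f f t) := by
    rw [hA, mul_assoc]
    refine mul_le_mul_of_nonneg_left ?_ hp.le
    linarith
  linarith

end Pool.Agent.CX
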