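import Pool.Agent.helper81.CX.Spec2

/-! Row cx:NRQ. -/

set_option autoImplicit false

open MeasureTheory Set Filter Topology
open scoped ENNReal
open Pool.Agent.helper81.CW

noncomputable section

namespace Pool.Agent.CX

theorem NRQ (hG1 : G1_stmt) (hG4 : G4_stmt) (hGVA : GVA_stmt) : NRQ_stmt := by
  intro n hn
  have hp : IsProbabilityMeasure (gm n) := (hG1 n).1
  have hn0 : (0 : ℝ) < n := by exact_mod_cast hn
  obtain ⟨h1, h2, h3⟩ := hGVA n (fun x : E n => ‖x‖) 1 zero_le_one (fun x y => by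
    rw [one_mul]
    exact abs_norm_sub_norm_le x y)
  have h4 : ∫ x : E n, ‖x‖ ^ 2 ∂(gm n) = n := by
    have h := hG4 n (fun _ => 1) 1 measurable_const (fun x => by norm_num) (fun x t _ => rfl)
    simpa using h
  set m : ℝ := ∫ x : E n, ‖x‖ ∂(gm n) with hm
  have hm0 : 0 ≤ m := integral_nonneg fun x => norm_nonneg x
  have hs : 0 < Real.sqrt n := Real.sqrt_pos.2 hn0
  have hss : Real.sqrt n ^ 2 = n := Real.sq_sqrt hn0.le
  have e : (fun x : E n => (‖x‖ / Real.sqrt n - 1) ^ 2) =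
      fun x : E n => (1 / (n : ℝ)) * ‖x‖ ^ 2 - (2 / Real.sqrt n) * ‖x‖ + 1 := by
    funext x
    rw [sub_sq, div_pow, hss]
    ring
  have i1 : Integrable (fun x : E n => (1 / (n : ℝ)) * ‖x‖ ^ 2) (gm n) := h2.const_mul _
  have i2 : Integrable (fun x : E n => (2 / Real.sqrt n) * ‖x‖) (gm n) := h1.const_mul _
  have i3 : Integrable (fun x : E n => (1 / (n : ℝ)) * ‖x‖ ^ 2 - (2 / Real.sqrt n) * ‖x‖) (gm n) := i1.sub i2
  have i4 : Integrable (fun _ : E n => (1 : ℝ)) (gm n) := integrable_const _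
  refine ⟨by rw [e]; exact i3.add i4, ?_⟩
  rw [e, integral_add i3 i4, integral_sub i1 i2, integral_const_mul, integral_const_mul, h4, ← hm,
    integral_const, probReal_univ, smul_eq_mul, mul_one]
  have h5 : (n : ℝ) ≤ 1 ^ 2 + m ^ 2 := by
    rw [← h4]
    exact h3
  have hr0 : 0 ≤ m / Real.sqrt n := div_nonneg hm0 hs.le
  have hr : 1 - 1 / (n : ℝ) ≤ (m / Real.sqrt n) ^ 2 := by
    rw [div_pow, hss, le_div_iff₀ hn0]
    field_simp
    linarith
  have hq0 : 0 ≤ 1 / (n : ℝ) := by positivity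
  have key : 1 - 1 / (n : ℝ) ≤ m / Real.sqrt n := by
    by_contra hlt
    rw [not_le] at hlt
    nlinarith
  have e2 : 1 / (n : ℝ) * n = 1 := by field_simp
  have e3 : 2 / Real.sqrt n * m = 2 * (m / Real.sqrt n) := by ring
  have e4 : 2 / (n : ℝ) = 2 * (1 / (n : ℝ)) := by ring
  rw [e2, e3, e4]
  linarith

end Pool.Agent.CX
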