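import Pool.Agent.helper81.CX.Spec2
import Pool.Agent.helper81.CW.Lower

/-! Row cx:TA2. -/

set_option autoImplicit false

open MeasureTheory Set Filter Topology
open scoped ENNReal
open Pool.Agent.helper81.CW

noncomputable section

namespace Pool.Agent.CX

theorem TA2 (hML2 : ML2_stmt) : TA2_stmt := by
  have h1 : Tendsto (fun n : ℕ => (n : ℝ) ^ 1 * (0.8188 / 0.8189) ^ n) atTop (nhds 0) := by
    apply tendsto_pow_const_mul_const_pow_of_abs_lt_one
    rw [abs_of_pos (by norm_num)]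
    norm_num
  have h1' := h1.const_mul 10
  rw [mul_zero] at h1'
  have h2 := h1'.eventually_le_const (show (0 : ℝ) < 1 by norm_num)
  unfold TA2_stmt
  filter_upwards [h2, eventually_ge_atTop 1, hML2] with n hn hn1 hm
  have hn1' : (1 : ℝ) ≤ n := by exact_mod_cast hn1
  refine le_trans ?_ ((ENNReal.div_le_div_right hm _).trans (lower_tau hn1).1)
  rw [← ENNReal.ofReal_div_of_pos (by positivity)]
  apply ENNReal.ofReal_le_ofReal
  rw [le_div_iff₀ (by positivity)]
  have h5 : (0.8188 : ℝ) ^ n = (0.8188 / 0.8189) ^ n * 0.8189 ^ n := by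
    rw [← mul_pow]
    congr 1
    norm_num
  rw [h5]
  have h6 : (0.8188 / 0.8189 : ℝ) ^ n * (5 * ((n : ℝ) + 1)) ≤ 1 := by
    refine le_trans ?_ hn
    rw [pow_one]
    have h7 : 0 ≤ (0.8188 / 0.8189 : ℝ) ^ n := by positivity
    nlinarith
  calc (0.8188 / 0.8189 : ℝ) ^ n * 0.8189 ^ n * (5 * ((n : ℝ) + 1))
      = ((0.8188 / 0.8189 : ℝ) ^ n * (5 * ((n : ℝ) + 1))) * 0.8189 ^ n := by ring
    _ ≤ 1 * 0.8189 ^ n := mul_le_mul_of_nonneg_right h6 (by positivity)
    _ = 0.8189 ^ n := one_mul _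

end Pool.Agent.CX
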